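import Pool.Agent.N39.RW.ChenD

/-!
# Quadruples `p, p + h, p + d, p + d + h` with two primes and two products of at most two primes

The quadruples `p, p + 2, p + 6, p + 8` and `p, p + 4, p + 6, p + 10` of the question consist of two pairs of primes
with the difference `h = 2` or `h = 4`, at the distance `d = 6`. For every even `h` and for a positive proportion of
the `d ≤ H`, for EVERY `H` between `K log² X` and `X`, we show that the number of the `p` in `(X, 2 X]` for which `p`
and `p + d` are primes and `p + h`, `p + d + h` are products of at most two primes has the order of magnitude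
`X / log⁴ X`, which is conjectured for the prime quadruples.
-/

set_option autoImplicit false

open Finset Filter

namespace Pool.Agent.Results.MP_092512_nt.ChenPairsAtDistances

/-- `p` is a prime and `p + h` is a prime or a product of two primes, all larger than `z` -/
def ChenPair (h : ℕ) (z : ℝ) (p : ℕ) : Prop :=
  p.Prime ∧ (p + h).primeFactorsList.length ≤ 2 ∧ z < (p : ℝ) ∧ ∀ q : ℕ, q.Prime → q ∣ p + h → z < (q : ℝ)

/-- the number of the `p` with `X < p < p + d ≤ 2 X` for which `p` and `p + d` are primes, `p + h` and `p + d + h` are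
products of at most two primes, and all these primes are larger than `z` -/
noncomputable def quads (h : ℕ) (z : ℝ) (X d : ℕ) : ℕ :=
  Set.ncard {p : ℕ | X < p ∧ p + d ≤ 2 * X ∧ ChenPair h z p ∧ ChenPair h z (p + d)}

open Pool.Agent.N39.RW

theorem adm (h : ℕ) (he : Even h) (p : ℕ) (hp : p.Prime) : ∃ m : ℕ, ∀ t ∈ ({0, h} : Finset ℕ), ¬ p ∣ m + t := by
  rcases Nat.eq_or_lt_of_le hp.two_le with h2 | h2
  · refine ⟨1, ?_⟩
    rw [← h2]
    intro t ht
    rw [mem_insert, mem_singleton] at ht
    rcases ht with rfl | rfl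
    · decide
    · obtain ⟨k, hk⟩ := he
      omega
  · by_cases h3 : p ∣ 1 + h
    · refine ⟨2, ?_⟩
      intro t ht
      rw [mem_insert, mem_singleton] at ht
      rcases ht with rfl | rfl
      · intro hd
        have := Nat.le_of_dvd (by norm_num) hd
        omega
      · intro hd
        have h4 : p ∣ (2 + t) - (1 + t) := Nat.dvd_sub hd h3
        have h5 : (2 + t) - (1 + t) = 1 := by omega
        rw [h5] at h4
        exact hp.one_lt.ne' (Nat.dvd_one.1 h4)
    · refine ⟨1, ?_⟩
      intro t ht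
      rw [mem_insert, mem_singleton] at ht
      rcases ht with rfl | rfl
      · intro hd
        exact hp.one_lt.ne' (Nat.dvd_one.1 hd)
      · exact h3

/-- For every even `h > 0` (for instance `h = 2` or `h = 4`) there are `r` and `c, C, K > 0` such that for all large
`X` and every `H` between `K log² X` and `X`, for at least `c H` of the integers `d` with `1 ≤ d ≤ H` the number of the
`p` with `X < p < p + d ≤ 2 X` for which `p, p + d` are primes and `p + h, p + d + h` are products of at most two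
primes, all larger than `X ^ (1 / r)`, lies between `c X / log⁴ X` and `C X / log⁴ X`. -/
theorem result (h : ℕ) (hh : 0 < h) (he : Even h) : ∃ (r : ℕ) (c C K : ℝ), 2 ≤ r ∧ 0 < c ∧ 0 < C ∧ 0 < K ∧
    ∀ᶠ X : ℕ in atTop, ∀ H : ℕ, K * Real.log X ^ 2 ≤ H → H ≤ X →
      c * H ≤ (Set.ncard {d : ℕ | 1 ≤ d ∧ d ≤ H ∧
        c * X / Real.log X ^ 4 ≤ (quads h ((X : ℝ) ^ (1 / (r : ℝ))) X d : ℝ) ∧
        (quads h ((X : ℝ) ^ (1 / (r : ℝ))) X d : ℝ) ≤ C * X / Real.log X ^ 4} : ℝ) := by
  classical
  obtain ⟨r, hr, c, C, K, hc, hC, hK, hd⟩ := diffT {0, h} (by simp) h (by simp) hh.ne' (adm h he)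
    ∅ (by simp) 0 (by simp)
  have hcard : ({0, h} : Finset ℕ).card = 2 := Finset.card_pair hh.ne
  rw [hcard] at hd
  refine ⟨r, c, C, K, hr, hc, hC, hK, ?_⟩
  filter_upwards [hd] with X hd H hH1 hH2
  refine (hd H hH1 hH2).trans ?_
  rw [← Set.ncard_coe_finset, Nat.cast_le]
  refine Set.ncard_le_ncard ?_ ((Set.finite_Iic H).subset fun d hd => hd.2.1)
  intro d hdd
  rw [mem_coe, mem_filter, mem_Icc] at hdd
  obtain ⟨⟨hd1, hd2⟩, hd3, hd4⟩ := hdd
  refine ⟨hd1, hd2, hd3.trans ?_, le_trans ?_ hd4⟩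
  · unfold quads
    rw [← Set.ncard_coe_finset, Nat.cast_le]
    refine Set.ncard_le_ncard ?_ ((Set.finite_Iic (2 * X)).subset fun p hp => by
      have := hp.2.1
      show p ≤ 2 * X
      omega)
    intro p hp
    rw [mem_coe, mem_filter, mem_Ioc] at hp
    obtain ⟨⟨p1, p2⟩, p3, p4, p5⟩ := hp
    refine ⟨p1, p3, ⟨p4.1, p4.2.1, (p4.2.2.2 0 (by simp)).2 p p4.1 (by simp), (p4.2.2.2 h (by simp)).2⟩,
      ⟨p5.1, p5.2.1, (p5.2.2.2 0 (by simp)).2 (p + d) p5.1 (by simp), (p5.2.2.2 h (by simp)).2⟩⟩
  · unfold quads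
    rw [← Set.ncard_coe_finset, Nat.cast_le]
    refine Set.ncard_le_ncard ?_ (Finset.finite_toSet _)
    rintro p ⟨p1, p2, p3, p4⟩
    have key : ∀ m : ℕ, ChenPair h ((X : ℝ) ^ (1 / (r : ℝ))) m → Ro {0, h} ((X : ℝ) ^ (1 / (r : ℝ))) m := by
      intro m hm t ht q hq hdv
      rw [mem_insert, mem_singleton] at ht
      rcases ht with rfl | rfl
      · rw [add_zero] at hdv
        rw [(Nat.prime_dvd_prime_iff_eq hq hm.1).1 hdv]
        exact hm.2.2.1
      · exact hm.2.2.2 q hq hdv
    rw [mem_coe, mem_filter, mem_Ioc]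
    exact ⟨⟨p1, by omega⟩, p2, key p p3, key (p + d) p4⟩

end Pool.Agent.Results.MP_092512_nt.ChenPairsAtDistances
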