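import Pool.Agent.N220.CF.Q2

/-!
# Prime tuples with shifts near linear forms in good approximations of almost every point

Let `k ≥ 1` (`k = 2` for quadruples). For almost every point `α` of `R^k`, all invertible integral matrices `M` of size `k + 1`, all
integral vectors `c` and all but finitely many integral vectors `(q, p_1, ..., p_k)`, `q ≥ 1`, with `|q α_i - p_i| ≤ b q^(-1/k)` for
all `i`, EVERY integral vector `d` at a distance of at most `log ^ W q` (in each coordinate) from `M (q, p) + c` has the property: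
if the tuple `n, n + d_0, ..., n + d_k` is admissible, then it obeys the law of Hardy and Littlewood at the scale `q`, in all
windows of length at least `q / log ^ A q` up to `B q`.
-/

set_option autoImplicit false

namespace Pool.Agent.Results.MP_092512_nt.ConvergentTuples

open Finset Filter MeasureTheory
open Pool.Agent.N220.CF (Near vec Admissible HL systems_fixed)

/-- All admissible tuples `n`, `n + d 0`, ..., `n + d k` with `d i` at a distance of at most `log ^ W q` from the `i`-th coordinate
of `M (q, p_1, ..., p_k) + c` satisfy the law of Hardy and Littlewood at the scale `q`. Here `t = (p, q)`. -/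
def Law {k : ℕ} (M : Matrix (Fin (k + 1)) (Fin (k + 1)) ℤ) (c : Fin (k + 1) → ℤ) (A B W : ℕ) (ε : ℝ)
    (t : (Fin k → ℤ) × ℕ) : Prop :=
  ∀ d : Fin (k + 1) → ℤ, (∀ i, |(d i : ℝ) - (((M.mulVec (vec t) i + c i : ℤ)) : ℝ)| ≤ Real.log t.2 ^ W) →
    Admissible (fun _ : Fin (k + 2) => 1) (Fin.cons 0 d) → HL ε A B t.2 (fun _ : Fin (k + 2) => 1) (Fin.cons 0 d)

/-- **Prime tuples with shifts near linear forms in good approximations of almost every point.** -/
theorem result (k : ℕ) (hk : 1 ≤ k) : ∀ᵐ α : Fin k → ℝ, ∀ (M : Matrix (Fin (k + 1)) (Fin (k + 1)) ℤ) (c : Fin (k + 1) → ℤ)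
    (A B W : ℕ) (ε : ℝ), M.det ≠ 0 → 0 < ε → ∀ b : ℝ, {t | Near b (1 / k) α t ∧ ¬ Law M c A B W ε t}.Finite := by
  have e : (Fin.cons 1 (fun _ : Fin (k + 1) => (1 : ℤ)) : Fin (k + 2) → ℤ) = fun _ => 1 := by
    funext i
    refine Fin.cases rfl (fun i => ?_) i
    rw [Fin.cons_succ]
  filter_upwards [systems_fixed k hk] with α hα M c A B W ε hM he b
  refine (hα (fun _ => 1) M c A B W ε hM he b).subset fun t ht => ⟨ht.1, fun h => ht.2 fun d hd hadm => ?_⟩
  have h1 := h d hd
  rw [e] at h1
  exact h1 hadm

end Pool.Agent.Results.MP_092512_nt.ConvergentTuples
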