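import Mathlib
import Pool.Agent.N740.HK.Bh5
import Pool.Agent.N740.HK.Trials
import Pool.Agent.N740.HK.Sch

/-!
# The Hardy–Littlewood law with the true constants in random models of the primes

The integers are decided one after the other.  An integer with a prime factor `p ≤ z(n)` is never
chosen, and the conditional probability of choosing `n + 1`, given the decisions up to `n`, is
asymptotic to `1 / (log n ∏ (1 - 1/p))`, `p ≤ z(n + 1)`, along the other integers.  Here `z(n)` tends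
to infinity slowly, for example like a power of `log n` (Granville's refinement of Cramér's model).
The prime quadruples of both shapes have almost surely the counts of the question, and all finite
systems of polynomials obey the law of Bateman and Horn, also in all intervals of length at least a
power of the logarithm.
-/

set_option autoImplicit false

open MeasureTheory Filter Set ProbabilityTheory Polynomial
open scoped Topology

namespace Pool.Agent.Results.MP_092512_nt.TrueConstantInModels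

variable {Ω : Type}

/-- `n` has no prime factor at most `z` -/
def Sifted (z n : ℕ) : Prop := ∀ p : ℕ, p.Prime → p ≤ z → ¬ p ∣ n

/-- `∏ (1 - 1/p)` over the primes `p ≤ z` -/
noncomputable def mertens (z : ℕ) : ℝ := ∏ p ∈ (Finset.Icc 1 z).filter Nat.Prime, (1 - 1 / (p : ℝ))

/-- `A n` is the event that `n` is chosen.  The events are adapted to the filtration `ℱ`; an integer
`n` with a prime factor at most `z n` is never chosen; and the conditional probability of `A (n + 1)`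
given `ℱ n`, times `log n` and times `∏ (1 - 1/p)`, `p ≤ z (n + 1)`, tends to `1` almost surely when
`n` tends to infinity in such a way that `n + 1` has no prime factor at most `z (n + 1)`. -/
def SievedModel [m : MeasurableSpace Ω] (μ : Measure Ω) (ℱ : Filtration ℕ m) (z : ℕ → ℕ) (A : ℕ → Set Ω) : Prop :=
  (∀ n, MeasurableSet[ℱ n] (A n)) ∧ (∀ n, ¬ Sifted (z n) n → A n = ∅) ∧
  ∀ᵐ ω ∂μ, Tendsto (fun n : ℕ => (μ[(A (n + 1)).indicator (fun _ => (1 : ℝ)) | ℱ n]) ω * (Real.log n * mertens (z (n + 1))))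
    (atTop ⊓ 𝓟 {n : ℕ | Sifted (z (n + 1)) (n + 1)}) (𝓝 1)

/-- The independent models: the integers with a prime factor at most `z n` are not chosen, the other
large integers `n` are chosen independently with probability `1 / (log n ∏ (1 - 1/p))`, `p ≤ z n`.
(Granville: `z n` of the order of `log n`.) -/
def IndependentModel [MeasurableSpace Ω] (μ : Measure Ω) (z : ℕ → ℕ) (A : ℕ → Set Ω) : Prop :=
  (∀ n, MeasurableSet (A n)) ∧ iIndepSet A μ ∧ (∀ n, ¬ Sifted (z n) n → A n = ∅) ∧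
  ∀ᶠ n : ℕ in atTop, Sifted (z n) n → μ (A n) = ENNReal.ofReal (1 / (Real.log n * mertens (z n)))

/-- The sieving limits: `z` is nondecreasing and unbounded, `z n ≤ (log n) ^ κ` and
`z (n ^ 2) ≤ B * z n` for all large `n` with some constants `κ`, `B` (for example
`z n = ⌊(log n) ^ κ⌋`, or `z n = ⌊log log n⌋`). -/
def SlowLimit (z : ℕ → ℕ) : Prop :=
  Monotone z ∧ Tendsto z atTop atTop ∧ (∃ κ : ℕ, ∀ᶠ n : ℕ in atTop, (z n : ℝ) ≤ Real.log n ^ κ) ∧
    ∃ B : ℕ, ∀ᶠ n : ℕ in atTop, z (n ^ 2) ≤ B * z n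

open Classical in
/-- `ω(p)`: the number of the residue classes `a` mod `p` such that `p` divides some `f(a)`, `f ∈ F` -/
noncomputable def rootClasses (F : Finset ℤ[X]) (p : ℕ) : ℕ :=
  ((Finset.range p).filter (fun a : ℕ => ∃ f ∈ F, (p : ℤ) ∣ f.eval (a : ℤ))).card

/-- the partial products `∏ (1 - ω(p)/p) / (1 - 1/p) ^ |F|`, `p ≤ y`, of the Bateman–Horn constant -/
noncomputable def partialConstant (F : Finset ℤ[X]) (y : ℕ) : ℝ :=
  ∏ p ∈ (Finset.Icc 1 y).filter Nat.Prime, (1 - (rootClasses F p : ℝ) / p) / (1 - 1 / (p : ℝ)) ^ F.card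

/-- the number of the `n ∈ (x, x + H]` for which all `f(n)`, `f ∈ F`, are members of `S` -/
noncomputable def count (F : Finset ℤ[X]) (S : Set ℕ) (x H : ℕ) : ℕ :=
  {n : ℕ | x < n ∧ n ≤ x + H ∧ ∀ f ∈ F, ∃ m ∈ S, (m : ℤ) = f.eval (n : ℤ)}.ncard

/-- the number of the quadruples `(p, p + 2, p + 6, p + 8)` of members of `S` with `1 ≤ p ≤ n` -/
noncomputable def N₁ (S : Set ℕ) (n : ℕ) : ℕ :=
  {p : ℕ | 1 ≤ p ∧ p ≤ n ∧ p ∈ S ∧ p + 2 ∈ S ∧ p + 6 ∈ S ∧ p + 8 ∈ S}.ncard

/-- the number of the quadruples `(p, p + 4, p + 6, p + 10)` of members of `S` with `1 ≤ p ≤ n` -/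
noncomputable def N₂ (S : Set ℕ) (n : ℕ) : ℕ :=
  {p : ℕ | 1 ≤ p ∧ p ≤ n ∧ p ∈ S ∧ p + 4 ∈ S ∧ p + 6 ∈ S ∧ p + 10 ∈ S}.ncard

/-- the partial products of the constant `E`: `27/2 ∏ q ^ 3 (q - 4) / (q - 1) ^ 4`, `3 < q ≤ y` -/
noncomputable def partialE (y : ℕ) : ℝ :=
  27 / 2 * ∏ q ∈ ((Finset.Icc 1 y).filter Nat.Prime).filter (fun q => 3 < q), (q : ℝ) ^ 3 * (q - 4) / (q - 1) ^ 4

open Pool.Agent.N740.HK Pool.Agent.R528.RM Pool.Agent.N740.HK.Pl

lemma log_ratio : Tendsto (fun n : ℕ => (Real.log ((n + 1 : ℕ) : ℝ))⁻¹ * Real.log n) atTop (𝓝 1) := by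
  have h1 : Tendsto (fun n : ℕ => Real.log ((n : ℝ) + 1) - Real.log n) atTop (𝓝 0) := by
    have h1 : Tendsto (fun n : ℕ => 1 + (1 : ℝ) / n) atTop (𝓝 (1 + 0)) :=
      tendsto_const_nhds.add tendsto_one_div_atTop_nhds_zero_nat
    rw [add_zero] at h1
    have h2 := (Real.continuousAt_log (one_ne_zero)).tendsto.comp h1
    rw [Real.log_one] at h2
    refine h2.congr' ?_
    filter_upwards [eventually_gt_atTop 0] with n hn
    have hn' : (0 : ℝ) < n := by exact_mod_cast hn
    show Real.log (1 + 1 / (n : ℝ)) = _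
    rw [← Real.log_div (by positivity) hn'.ne']
    congr 1
    field_simp
  have h2 : Tendsto (fun n : ℕ => Real.log ((n : ℝ) + 1)) atTop atTop :=
    Real.tendsto_log_atTop.comp (tendsto_atTop_add_const_right _ _ tendsto_natCast_atTop_atTop)
  have h3 := h1.div_atTop h2
  have h4 : Tendsto (fun n : ℕ => 1 - (Real.log ((n : ℝ) + 1) - Real.log n) / Real.log ((n : ℝ) + 1)) atTop (𝓝 (1 - 0)) :=
    tendsto_const_nhds.sub h3
  rw [sub_zero] at h4
  refine h4.congr' ?_
  filter_upwards [h2.eventually_gt_atTop 0] with n hn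
  push_cast
  field_simp
  ring

lemma const_eq (F : Finset ℤ[X]) (y : ℕ) : partialConstant F y = VF F y / GG y ^ F.card := (ser_eq F y).symm

open Classical in
/-- the indicator of the `n` for which all `f(n)` are in `S` -/
noncomputable def gi (F : Finset ℤ[X]) (S : Set ℕ) (n : ℕ) : ℝ := if ∀ f ∈ F, ∃ m ∈ S, (m : ℤ) = f.eval (n : ℤ) then 1 else 0

lemma gi_01 (F : Finset ℤ[X]) (S : Set ℕ) (n : ℕ) : 0 ≤ gi F S n ∧ gi F S n ≤ 1 := by
  unfold gi
  split_ifs <;> constructor <;> norm_num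

lemma count_eq (F : Finset ℤ[X]) (S : Set ℕ) (x H : ℕ) : (count F S x H : ℝ) = ∑ n ∈ Finset.Ioc x (x + H), gi F S n := by
  classical
  have e : {n : ℕ | x < n ∧ n ≤ x + H ∧ ∀ f ∈ F, ∃ m ∈ S, (m : ℤ) = f.eval (n : ℤ)} =
      ((Finset.Ioc x (x + H)).filter (fun n => ∀ f ∈ F, ∃ m ∈ S, (m : ℤ) = f.eval (n : ℤ)) : Finset ℕ) := by
    ext n
    simp only [Set.mem_ofPred_eq, Finset.coe_filter, Finset.mem_Ioc]
    tauto
  unfold count gi
  rw [e, Set.ncard_coe_finset, Finset.card_filter]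
  push_cast
  rfl

lemma prod_J1 {A : ℕ → Set Ω} {F : Finset ℤ[X]} {n : ℕ} (ω : Ω) (hpos : ∀ f ∈ F, 0 < f.eval (n : ℤ)) :
    ∏ f ∈ F, J1 A (vl f n) ω = gi F {k | ω ∈ A k} n := by
  classical
  have h1 : ∀ f ∈ F, (ω ∈ A (vl f n) ↔ ∃ m ∈ ({k | ω ∈ A k} : Set ℕ), (m : ℤ) = f.eval (n : ℤ)) := by
    intro f hf
    constructor
    · intro h
      exact ⟨vl f n, h, vl_cast (hpos f hf)⟩
    · rintro ⟨m, hm, he⟩
      have h2 : m = vl f n := by
        have := vl_cast (hpos f hf)
        rw [← he] at this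
        exact_mod_cast this.symm
      rw [← h2]
      exact hm
  unfold gi
  by_cases h : ∀ f ∈ F, ∃ m ∈ ({k | ω ∈ A k} : Set ℕ), (m : ℤ) = f.eval (n : ℤ)
  · rw [if_pos h]
    refine Finset.prod_eq_one fun f hf => ?_
    unfold J1
    exact Set.indicator_of_mem ((h1 f hf).2 (h f hf)) _
  · rw [if_neg h]
    push Not at h
    obtain ⟨f, hf, h2⟩ := h
    refine Finset.prod_eq_zero hf ?_
    unfold J1
    refine Set.indicator_of_notMem (fun hω => ?_) _
    obtain ⟨m, hm, he⟩ := (h1 f hf).1 hω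
    exact h2 m hm he

lemma sh_eval (h : Finset ℕ) (S : Set ℕ) (n : ℕ) : (∀ f ∈ sh h, ∃ m ∈ S, (m : ℤ) = f.eval (n : ℤ)) ↔ ∀ b ∈ h, n + b ∈ S := by
  rw [sh_mem]
  refine forall₂_congr fun b _ => ?_
  rw [Polynomial.eval_add, Polynomial.eval_X, Polynomial.eval_C]
  constructor
  · rintro ⟨m, hm, he⟩
    have : m = n + b := by exact_mod_cast he
    rwa [← this]
  · intro hb
    exact ⟨n + b, hb, by push_cast; rfl⟩

lemma N1_eq (S : Set ℕ) (n : ℕ) : N₁ S n = count (sh {0, 2, 6, 8}) S 0 n := by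
  unfold N₁ count
  congr 1
  ext p
  simp only [Set.mem_ofPred_eq, sh_eval, Finset.forall_mem_insert, Finset.mem_singleton, forall_eq, add_zero, zero_add]
  constructor
  · rintro ⟨h1, h2, h3, h4, h5, h6⟩
    exact ⟨h1, h2, h3, h4, h5, h6⟩
  · rintro ⟨h1, h2, h3, h4, h5, h6⟩
    exact ⟨h1, h2, h3, h4, h5, h6⟩

lemma N2_eq (S : Set ℕ) (n : ℕ) : N₂ S n = count (sh {0, 4, 6, 10}) S 0 n := by
  unfold N₂ count
  congr 1
  ext p
  simp only [Set.mem_ofPred_eq, sh_eval, Finset.forall_mem_insert, Finset.mem_singleton, forall_eq, add_zero, zero_add]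
  constructor
  · rintro ⟨h1, h2, h3, h4, h5, h6⟩
    exact ⟨h1, h2, h3, h4, h5, h6⟩
  · rintro ⟨h1, h2, h3, h4, h5, h6⟩
    exact ⟨h1, h2, h3, h4, h5, h6⟩

end Pool.Agent.Results.MP_092512_nt.TrueConstantInModels

open Pool.Agent.Results.MP_092512_nt.TrueConstantInModels Pool.Agent.N740.HK Pool.Agent.R528.RM Pool.Agent.N740.HK.Pl

/-- The independent models are sieved models for some filtration.  The constant `E` exists and is
positive.  In every sieved model with a slow sieving limit, almost surely, the numbers of the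
quadruples of the two shapes are asymptotic to `E n / (log n) ^ 4` and `2 E n / (log n) ^ 4`; and for
all finite sets `F` of nonconstant integer polynomials with positive leading coefficients and all `C`
to which the partial products of the Bateman–Horn constant of `F` converge, the number of the
`m ≤ n` for which all `f(m)` are chosen, times `∏ deg f (log n) ^ |F| / n`, tends to `C`, and for
every `ε > 0` there are `a` and `δ > 0` such that the same holds up to `ε` in all intervals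
`(x, x + H]`, `(log x) ^ a ≤ H ≤ x ^ (1 + δ)`, with `x` large. -/
theorem Pool.Agent.Results.MP_092512_nt.TrueConstantInModels.result :
    (∀ {Ω : Type} [m : MeasurableSpace Ω] (μ : Measure Ω) [IsProbabilityMeasure μ] (A : ℕ → Set Ω) (z : ℕ → ℕ),
      IndependentModel μ z A → ∃ ℱ : Filtration ℕ m, SievedModel μ ℱ z A) ∧
    ∃ E : ℝ, 0 < E ∧ Tendsto partialE atTop (𝓝 E) ∧
      ∀ {Ω : Type} [m : MeasurableSpace Ω] (μ : Measure Ω) [IsProbabilityMeasure μ] (A : ℕ → Set Ω)
        (ℱ : Filtration ℕ m) (z : ℕ → ℕ), SlowLimit z → SievedModel μ ℱ z A →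
        ∀ᵐ ω ∂μ,
          Tendsto (fun n : ℕ => Real.log n ^ 4 / n * N₁ {k | ω ∈ A k} n) atTop (𝓝 E) ∧
          Tendsto (fun n : ℕ => Real.log n ^ 4 / n * N₂ {k | ω ∈ A k} n) atTop (𝓝 (2 * E)) ∧
          ∀ F : Finset ℤ[X], (∀ f ∈ F, 0 < f.natDegree ∧ 0 < f.leadingCoeff) →
            ∀ C : ℝ, Tendsto (partialConstant F) atTop (𝓝 C) →
              Tendsto (fun n : ℕ => (∏ f ∈ F, (f.natDegree : ℝ)) * Real.log n ^ F.card / n *
                count F {k | ω ∈ A k} 0 n) atTop (𝓝 C) ∧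
              ∀ ε : ℝ, 0 < ε → ∃ a : ℕ, ∃ δ : ℝ, 0 < δ ∧ ∀ᶠ x : ℕ in atTop, ∀ H : ℕ,
                Real.log x ^ a ≤ H → (H : ℝ) ≤ (x : ℝ) ^ (1 + δ) →
                |(∏ f ∈ F, (f.natDegree : ℝ)) * Real.log x ^ F.card / H * count F {k | ω ∈ A k} x H - C| ≤ ε := by
  classical
  obtain ⟨E, hE0, hE⟩ := qd_lim
  refine ⟨fun {Ω} m μ _ A z => ?_, E, hE0, hE, fun {Ω} m μ _ A ℱ z hz hM => ?_⟩
  · rintro ⟨hA, hi, he, hp⟩
    refine ⟨gen hA, gen_meas hA, he, ?_⟩
    have h1 : ∀ᵐ ω ∂μ, ∀ n, (μ[(A (n + 1)).indicator (fun _ => (1 : ℝ)) | gen hA n]) ω =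
        (μ (A (n + 1))).toReal := ae_all_iff.2 fun n => dens_gen hA hi n
    filter_upwards [h1] with ω hω
    refine (log_ratio.mono_left inf_le_left).congr' ?_
    rw [EventuallyEq, eventually_inf_principal]
    filter_upwards [eventually_ge_atTop 2, (tendsto_add_atTop_nat 1).eventually hp] with n hn hpn hf
    have hG : 0 < mertens (z (n + 1)) := GG_pos _
    have hn' : (2 : ℝ) ≤ n := by exact_mod_cast hn
    have hL : 0 < Real.log ((n + 1 : ℕ) : ℝ) := Real.log_pos (by push_cast; linarith)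
    rw [hω, hpn hf, ENNReal.toReal_ofReal (by positivity)]
    field_simp
  · obtain ⟨hzm, hzt, ⟨κ, hzκ⟩, hzr⟩ := hz
    filter_upwards [bh_all (μ := μ) (ℱ := ℱ) (A := A) hM.1 hzm hzt hzκ (reg_pow hzm hzr) hM.2.1 hM.2.2] with ω hω
    have hgen : ∀ F : Finset ℤ[X], (∀ f ∈ F, 0 < f.natDegree ∧ 0 < f.leadingCoeff) →
        ∀ C : ℝ, Tendsto (partialConstant F) atTop (𝓝 C) →
          Tendsto (fun n : ℕ => (∏ f ∈ F, (f.natDegree : ℝ)) * Real.log n ^ F.card / n *
            count F {k | ω ∈ A k} 0 n) atTop (𝓝 C) ∧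
          ∀ ε : ℝ, 0 < ε → ∃ a : ℕ, ∃ δ : ℝ, 0 < δ ∧ ∀ᶠ x : ℕ in atTop, ∀ H : ℕ,
            Real.log x ^ a ≤ H → (H : ℝ) ≤ (x : ℝ) ^ (1 + δ) →
            |(∏ f ∈ F, (f.natDegree : ℝ)) * Real.log x ^ F.card / H * count F {k | ω ∈ A k} x H - C| ≤ ε := by
      intro F hF C hC
      have hC' : Tendsto (fun v => VF F v / GG v ^ F.card) atTop (𝓝 C) := by
        refine hC.congr fun y => const_eq F y
      have hpos : ∀ᶠ n : ℕ in atTop, ∀ f ∈ F, 0 < f.eval (n : ℤ) := by
        rw [Filter.eventually_all_finset]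
        exact fun f hf => ev_pos f (hF f hf).2
      have hwin : ∀ θ : ℝ, 0 < θ → ∃ a : ℕ, ∃ δ : ℝ, 0 < δ ∧ ∀ᶠ x : ℕ in atTop, ∀ H : ℕ, Real.log x ^ a ≤ H →
          (H : ℝ) ≤ (x : ℝ) ^ (1 + δ) →
          |(∑ n ∈ Finset.Ioc x (x + H), gi F {k | ω ∈ A k} n) * ((∏ f ∈ F, (f.natDegree : ℝ)) * Real.log x ^ F.card) / H - C| ≤ θ := by
        intro θ hθ
        obtain ⟨a, δ, hδ, h1⟩ := hω F hF C hC' θ hθ
        refine ⟨a, δ, hδ, ?_⟩
        filter_upwards [h1, eventually_forall_ge_atTop.2 hpos] with x h2 h3 H hH1 hH2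
        have h4 := h2 H hH1 hH2
        rwa [Finset.sum_congr rfl (fun n hn => prod_J1 ω (h3 n (Finset.mem_Ioc.1 hn).1.le))] at h4
      constructor
      · have h5 := full_of_windows (gi_01 F {k | ω ∈ A k}) (Finset.prod_nonneg fun f _ => Nat.cast_nonneg _) F.card hwin
        refine h5.congr fun n => ?_
        have e1 := count_eq F {k | ω ∈ A k} 0 n
        rw [zero_add] at e1
        rw [e1]
        ring
      · intro ε hε
        obtain ⟨a, δ, hδ, h1⟩ := hwin ε hε
        refine ⟨a, δ, hδ, ?_⟩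
        filter_upwards [h1] with x h2 H hH1 hH2
        have h4 := h2 H hH1 hH2
        rw [count_eq]
        convert h4 using 3
        ring
    refine ⟨?_, ?_, hgen⟩
    · have h1 := (hgen (sh {0, 2, 6, 8}) (sh_ad _) E (by
        refine hE.congr' ?_
        filter_upwards [eventually_ge_atTop 3] with y hy
        rw [const_eq, shape1 hy])).1
      rw [sh_deg, card_0268] at h1
      refine h1.congr fun n => ?_
      rw [N1_eq, one_mul]
    · have h1 := (hgen (sh {0, 4, 6, 10}) (sh_ad _) (2 * E) (by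
        refine (hE.const_mul 2).congr' ?_
        filter_upwards [eventually_ge_atTop 5] with y hy
        rw [const_eq, shape2 hy])).1
      rw [sh_deg, card_04610] at h1
      refine h1.congr fun n => ?_
      rw [N2_eq, one_mul]
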